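import Pool.Agent.Helper37.BP.SysDefs

/-! Telescoping (part SD). -/

open MeasureTheory
open scoped ENNReal NNReal

set_option maxSynthPendingDepth 3

namespace Pool.Agent.Helper88.BAP

open Pool.Agent.BAPp (sgn)
open Pool.Agent.BAPp.Khin (sgn_sq abs_sgn)
open Pool.Agent.Helper37.BP

/-- nodes of level `k + 1` -/
def chE (k : ℕ) : Sg k × Bool ≃ Sg (k + 1) where
  toFun := fun p => ch p.1 p.2
  invFun := fun j => (pr j, j (Fin.last k))
  left_inv := fun p => by simp
  right_inv := fun j => ch_pr j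

lemma sum_ch {k : ℕ} (F : Sg (k + 1) → ℝ) : ∑ j, F j = ∑ i : Sg k, ∑ c, F (ch i c) := by
  rw [← (chE k).sum_comp F, Fintype.sum_prod_type]
  rfl

/-- functions on one level have finite support -/
lemma lev_supp (k : ℕ) (F : Sg k × (Sg k → Bool) → ℝ) : (Function.support (lev k F)).Finite := by
  refine (Set.finite_range (fun g : Sg k × (Sg k → Bool) => (⟨k, g⟩ : Gam))).subset ?_
  rintro ⟨k', g⟩ hg
  have h : k' = k := by
    by_contra hne
    exact hg (lev_ne k F ⟨k', g⟩ hne)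
  subst h
  exact ⟨g, rfl⟩

lemma ev_supp (t : Tree) (k : ℕ) (h : Sg k) : (Function.support (ev t k h)).Finite := lev_supp k _

lemma xi_supp (t : Tree) (s : ℝ) (k : ℕ) (h : Sg k) :
    (Function.support (xi t s k h)).Finite := by
  refine (ev_supp t k h).subset fun γ hγ => ?_
  rw [Function.mem_support] at hγ ⊢
  intro h0
  apply hγ
  unfold xi
  rw [h0, zero_div]

section lin

variable {Γ : Type} {ρ : Γ → ℝ}

lemma ip_summable {v : Γ → ℝ} (hv : (Function.support v).Finite) (y : Γ → ℝ) :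
    Summable fun γ => ρ γ * (v γ * y γ) := by
  refine summable_of_hasFiniteSupport (hv.subset fun γ h => ?_)
  simp only [Function.mem_support] at h ⊢
  intro h0
  apply h
  rw [h0]
  ring

lemma ip_sub_left {v w : Γ → ℝ} (hv : (Function.support v).Finite)
    (hw : (Function.support w).Finite) (y : Γ → ℝ) :
    ip ρ (fun γ => v γ - w γ) y = ip ρ v y - ip ρ w y := by
  unfold ip
  rw [← Summable.tsum_sub (ip_summable hv y) (ip_summable hw y)]
  exact tsum_congr fun γ => by ring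

lemma ip_smul_left {v : Γ → ℝ} (c : ℝ) (y : Γ → ℝ) :
    ip ρ (fun γ => c * v γ) y = c * ip ρ v y := by
  unfold ip
  rw [← tsum_mul_left]
  exact tsum_congr fun γ => by ring

lemma ip_sum_left {ι : Type} (T : Finset ι) (v : ι → Γ → ℝ)
    (hv : ∀ i ∈ T, (Function.support (v i)).Finite) (y : Γ → ℝ) :
    ip ρ (fun γ => ∑ i ∈ T, v i γ) y = ∑ i ∈ T, ip ρ (v i) y := by
  unfold ip
  rw [← Summable.tsum_finsetSum fun i hi => ip_summable (hv i hi) y]
  refine tsum_congr fun γ => ?_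
  rw [Finset.sum_mul, Finset.mul_sum]

lemma supp_smul {v : Γ → ℝ} (c : ℝ) (hv : (Function.support v).Finite) :
    (Function.support fun γ => c * v γ).Finite := by
  refine hv.subset fun γ h => ?_
  rw [Function.mem_support] at h ⊢
  intro h0
  apply h
  rw [h0, mul_zero]

lemma supp_sum {ι : Type} (T : Finset ι) (v : ι → Γ → ℝ)
    (hv : ∀ i ∈ T, (Function.support (v i)).Finite) :
    (Function.support fun γ => ∑ i ∈ T, v i γ).Finite := by
  refine (Set.Finite.biUnion T.finite_toSet hv).subset fun γ h => ?_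
  rw [Function.mem_support] at h
  obtain ⟨i, hi, hne⟩ := Finset.exists_ne_zero_of_sum_ne_zero h
  exact Set.mem_biUnion (Finset.mem_coe.2 hi) hne

end lin

/-- the pairing with a constraint vector -/
lemma ip_vv (t : Tree) (s : ℝ) (n : ℕ) (i : Sg n) (y : Gam → ℝ) :
    ip (rho s) (vv t s n i) y =
      (1 / 2) * ∑ c, sgn c * ip (rho s) (xi t s (n + 1) (ch i c)) y -
      (1 / 4) * ∑ c, ∑ c', ip (rho s) (xi t s (n + 2) (ch (ch i c) c')) y := by
  unfold vv
  have h1 : ∀ c, (Function.support fun γ => sgn c * xi t s (n + 1) (ch i c) γ).Finite := fun c =>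
    supp_smul _ (xi_supp t s _ _)
  have h2 : (Function.support fun γ => ∑ c, sgn c * xi t s (n + 1) (ch i c) γ).Finite :=
    supp_sum _ _ fun c _ => h1 c
  have h3 : ∀ c, (Function.support fun γ => ∑ c', xi t s (n + 2) (ch (ch i c) c') γ).Finite :=
    fun c => supp_sum _ _ fun c' _ => xi_supp t s _ _
  have h4 : (Function.support fun γ => ∑ c, ∑ c', xi t s (n + 2) (ch (ch i c) c') γ).Finite :=
    supp_sum _ _ fun c _ => h3 c
  rw [ip_sub_left (supp_smul _ h2) (supp_smul _ h4), ip_smul_left, ip_smul_left,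
    ip_sum_left _ _ (fun c _ => h1 c), ip_sum_left _ _ (fun c _ => h3 c)]
  have e1 : ∑ c, ip (rho s) (fun γ => sgn c * xi t s (n + 1) (ch i c) γ) y =
      ∑ c, sgn c * ip (rho s) (xi t s (n + 1) (ch i c)) y :=
    Finset.sum_congr rfl fun c _ => ip_smul_left _ _
  have e2 : ∑ c, ip (rho s) (fun γ => ∑ c', xi t s (n + 2) (ch (ch i c) c') γ) y =
      ∑ c, ∑ c', ip (rho s) (xi t s (n + 2) (ch (ch i c) c')) y :=
    Finset.sum_congr rfl fun c _ =>
      ip_sum_left Finset.univ (fun c' => xi t s (n + 2) (ch (ch i c) c'))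
        (fun c' _ => xi_supp t s _ _) y
  rw [e1, e2]

/-! ### signs -/

lemma sum_sgn_ne {ι : Type} [Fintype ι] [DecidableEq ι] {j j' : ι} (h : j ≠ j') :
    ∑ θ : ι → Bool, sgn (θ j) * sgn (θ j') = 0 := by
  refine Finset.sum_involution (fun θ _ => Function.update θ j (!θ j)) ?_ ?_ ?_ ?_
  · intro θ _
    rw [Function.update_self, Function.update_of_ne h.symm]
    cases θ j <;> cases θ j' <;> simp [sgn]
  · intro θ _ _ hcon
    have := congrFun hcon j
    rw [Function.update_self] at this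
    cases h' : θ j <;> rw [h'] at this <;> simp at this
  · intro θ _
    exact Finset.mem_univ _
  · intro θ _
    rw [Function.update_self, Bool.not_not, Function.update_idem, Function.update_eq_self]

lemma sum_sgn {ι : Type} [Fintype ι] [DecidableEq ι] (j j' : ι) :
    ∑ θ : ι → Bool, sgn (θ j) * sgn (θ j') = if j = j' then 2 ^ Fintype.card ι else 0 := by
  split_ifs with h
  · subst h
    simp only [sgn_sq]
    simp
  · exact sum_sgn_ne h

/-- orthogonality of signs -/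
lemma sum_sgn_mul {ι : Type} [Fintype ι] [DecidableEq ι] (B : Finset ι) (f g : ι → ℝ) :
    ∑ θ : ι → Bool, (∑ j ∈ B, sgn (θ j) * f j) * (∑ j ∈ B, sgn (θ j) * g j) =
      2 ^ Fintype.card ι * ∑ j ∈ B, f j * g j := by
  have h1 : ∀ θ : ι → Bool, (∑ j ∈ B, sgn (θ j) * f j) * (∑ j ∈ B, sgn (θ j) * g j) =
      ∑ j ∈ B, ∑ j' ∈ B, (f j * g j') * (sgn (θ j) * sgn (θ j')) := by
    intro θ
    rw [Finset.sum_mul_sum]
    exact Finset.sum_congr rfl fun j _ => Finset.sum_congr rfl fun j' _ => by ring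
  simp only [h1]
  rw [Finset.sum_comm, Finset.mul_sum]
  refine Finset.sum_congr rfl fun j hj => ?_
  rw [Finset.sum_comm]
  have h2 : ∀ j' ∈ B, ∑ θ : ι → Bool, (f j * g j') * (sgn (θ j) * sgn (θ j')) =
      if j = j' then (f j * g j') * 2 ^ Fintype.card ι else 0 := by
    intro j' _
    rw [← Finset.mul_sum, sum_sgn, mul_ite, mul_zero]
  rw [Finset.sum_congr rfl h2, Finset.sum_ite_eq, if_pos hj]
  ring

lemma card_Sg (k : ℕ) : Fintype.card (Sg k) = 2 ^ k := by simp

lemma B_symm (t : Tree) {k : ℕ} {j j0 : Sg k} (h : j ∈ t.B k j0) : j0 ∈ t.B k j := by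
  rw [t.B_eq k j0 j h]
  exact t.B_self k j0

/-- averages over the classes -/
lemma sum_B (t : Tree) (k : ℕ) (g : Sg k → ℝ) :
    ∑ j0, ∑ j ∈ t.B k j0, g j = t.b k * ∑ j, g j := by
  have h1 : ∀ j0, ∑ j ∈ t.B k j0, g j = ∑ j, if j ∈ t.B k j0 then g j else 0 := fun j0 => by
    rw [Finset.sum_ite_mem, Finset.univ_inter]
  simp only [h1]
  rw [Finset.sum_comm, Finset.mul_sum]
  refine Finset.sum_congr rfl fun j _ => ?_
  have h2 : ∀ j0, (if j ∈ t.B k j0 then g j else 0) = if j0 ∈ t.B k j then g j else 0 := by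
    intro j0
    by_cases h : j ∈ t.B k j0
    · rw [if_pos h, if_pos (B_symm t h)]
    · rw [if_neg h, if_neg fun h' => h (B_symm t h')]
  simp only [h2]
  rw [Finset.sum_ite_mem, Finset.univ_inter, Finset.sum_const, t.B_card, nsmul_eq_mul]

lemma b_pos (t : Tree) (k : ℕ) : 0 < t.b k := by
  rcases Nat.eq_zero_or_pos (t.b k) with h | h
  · have h1 := t.b_ge k
    rw [h] at h1
    have h2 : 0 < 2 ^ k := by positivity
    simp at h1
  · exact h

/-- the partial sums -/
noncomputable def SS (t : Tree) (s : ℝ) (y : Gam → ℝ) (γ : Gam) (n : ℕ) : ℝ :=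
  ∑ i : Sg n, ((1 / 2 ^ n) * ((1 / 2) * ∑ c, sgn c * ip (rho s) (xi t s (n + 1) (ch i c)) y)) *
    zz t n i γ

lemma ev_zero (t : Tree) (k : ℕ) (h : Sg k) (γ : Gam) (hne : γ.1 ≠ k) : ev t k h γ = 0 :=
  lev_ne k _ γ hne

lemma zz_zero (t : Tree) (n : ℕ) (i : Sg n) (γ : Gam) (h1 : γ.1 ≠ n + 1) (h2 : γ.1 ≠ n + 2) :
    zz t n i γ = 0 := by
  unfold zz
  simp only [ev_zero t _ _ γ h1, ev_zero t _ _ γ h2, mul_zero, Finset.sum_const_zero, add_zero]

lemma SS_zero (t : Tree) (s : ℝ) (y : Gam → ℝ) (γ : Gam) {n : ℕ} (h : γ.1 ≤ n) :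
    SS t s y γ n = 0 := by
  unfold SS
  refine Finset.sum_eq_zero fun i _ => ?_
  rw [zz_zero t n i γ (by omega) (by omega), mul_zero]

lemma SS_succ (t : Tree) (s : ℝ) (y : Gam → ℝ)
    (hy : ∀ n (i : Sg n), ip (rho s) (vv t s n i) y = 0) (γ : Gam) (n : ℕ) :
    SS t s y γ (n + 1) - SS t s y γ n =
      1 / 2 ^ (n + 2) * ∑ j : Sg (n + 2), ip (rho s) (xi t s (n + 2) j) y * yy t n j γ := by
  have h1 : ∑ j : Sg (n + 2), ip (rho s) (xi t s (n + 2) j) y * yy t n j γ =
      ∑ i : Sg (n + 1), (∑ c, sgn c * ip (rho s) (xi t s (n + 2) (ch i c)) y) * zz t (n + 1) i γ -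
      ∑ i : Sg n, (∑ c, ∑ c', ip (rho s) (xi t s (n + 2) (ch (ch i c) c')) y) * zz t n i γ := by
    have h2 : ∑ j : Sg (n + 2), ip (rho s) (xi t s (n + 2) j) y * yy t n j γ =
        ∑ j : Sg (n + 2), (sgn (j (Fin.last (n + 1))) * ip (rho s) (xi t s (n + 2) j) y) *
          zz t (n + 1) (pr j) γ -
        ∑ j : Sg (n + 2), ip (rho s) (xi t s (n + 2) j) y * zz t n (pr (pr j)) γ := by
      rw [← Finset.sum_sub_distrib]
      refine Finset.sum_congr rfl fun j _ => ?_
      unfold yy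
      ring
    rw [h2]
    congr 1
    · rw [sum_ch]
      refine Finset.sum_congr rfl fun i _ => ?_
      rw [Finset.sum_mul]
      refine Finset.sum_congr rfl fun c _ => ?_
      rw [pr_ch, ch_last]
    · rw [sum_ch, sum_ch]
      refine Finset.sum_congr rfl fun i _ => ?_
      rw [Finset.sum_mul]
      refine Finset.sum_congr rfl fun c _ => ?_
      rw [Finset.sum_mul]
      refine Finset.sum_congr rfl fun c' _ => ?_
      rw [pr_ch, pr_ch]
  rw [h1, mul_sub]
  unfold SS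
  congr 1
  · rw [Finset.mul_sum]
    refine Finset.sum_congr rfl fun i _ => ?_
    have e : (1 : ℝ) / 2 ^ (n + 2) = 1 / 2 ^ (n + 1) * (1 / 2) := by
      rw [pow_succ (2 : ℝ) (n + 1)]
      field_simp
    rw [e]
    ring
  · rw [Finset.mul_sum]
    refine Finset.sum_congr rfl fun i _ => ?_
    have h3 := ip_vv t s n i y
    rw [hy n i] at h3
    have h4 : ∑ c, ∑ c', ip (rho s) (xi t s (n + 2) (ch (ch i c) c')) y =
        4 * ((1 / 2) * ∑ c, sgn c * ip (rho s) (xi t s (n + 1) (ch i c)) y) := by linarith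
    rw [h4]
    have e : (1 : ℝ) / 2 ^ (n + 2) = 1 / 2 ^ n * (1 / 4) := by
      rw [pow_add]
      field_simp
      norm_num
    rw [e]
    ring

theorem telescope (t : Tree) (s : ℝ) (hs0 : 0 < s) (hs1 : s < 1) (y : Gam → ℝ)
    (hy : ∀ n (i : Sg n), ip (rho s) (vv t s n i) y = 0) (K : ℕ) (γ : Gam) :
    ∑ i : Sg K, ((1 / 2 ^ K) * ((1 / 2) * ∑ c, sgn c * ip (rho s) (xi t s (K + 1) (ch i c)) y)) *
        zz t K i γ =
      ∑' n : ℕ, (if K ≤ n then
        -((1 / (2 ^ (n + 2) * t.b (n + 2) * 2 ^ (2 ^ (n + 2)))) *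
        ∑ j0 : Sg (n + 2), ∑ θ : Sg (n + 2) → Bool,
          (∑ j ∈ t.B (n + 2) j0, sgn (θ j) * ip (rho s) (xi t s (n + 2) j) y) *
          (∑ j ∈ t.B (n + 2) j0, sgn (θ j) * yy t n j γ)) else 0) := by
  have hterm : ∀ n, -((1 / (2 ^ (n + 2) * t.b (n + 2) * 2 ^ (2 ^ (n + 2)))) *
        ∑ j0 : Sg (n + 2), ∑ θ : Sg (n + 2) → Bool,
          (∑ j ∈ t.B (n + 2) j0, sgn (θ j) * ip (rho s) (xi t s (n + 2) j) y) *
          (∑ j ∈ t.B (n + 2) j0, sgn (θ j) * yy t n j γ)) =
      SS t s y γ n - SS t s y γ (n + 1) := by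
    intro n
    have hb : (0 : ℝ) < t.b (n + 2) := by exact_mod_cast b_pos t (n + 2)
    have h1 : ∀ j0 : Sg (n + 2), ∑ θ : Sg (n + 2) → Bool,
        (∑ j ∈ t.B (n + 2) j0, sgn (θ j) * ip (rho s) (xi t s (n + 2) j) y) *
        (∑ j ∈ t.B (n + 2) j0, sgn (θ j) * yy t n j γ) =
        2 ^ (2 ^ (n + 2)) * ∑ j ∈ t.B (n + 2) j0,
          ip (rho s) (xi t s (n + 2) j) y * yy t n j γ := by
      intro j0
      rw [sum_sgn_mul, card_Sg]
    simp only [h1]
    rw [← Finset.mul_sum, sum_B]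
    have h2 := SS_succ t s y hy γ n
    set Z := ∑ j : Sg (n + 2), ip (rho s) (xi t s (n + 2) j) y * yy t n j γ
    have h3 : 1 / (2 ^ (n + 2) * (t.b (n + 2) : ℝ) * 2 ^ (2 ^ (n + 2))) *
        (2 ^ (2 ^ (n + 2)) * (t.b (n + 2) * Z)) = 1 / 2 ^ (n + 2) * Z := by
      field_simp
    rw [h3]
    linarith
  simp only [hterm]
  have hsum : ∀ N, K ≤ N → ∑ n ∈ Finset.range N, (if K ≤ n then
      SS t s y γ n - SS t s y γ (n + 1) else 0) = SS t s y γ K - SS t s y γ N := by
    intro N hN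
    induction N, hN using Nat.le_induction with
    | base =>
      rw [sub_self]
      refine Finset.sum_eq_zero fun n hn => ?_
      rw [Finset.mem_range] at hn
      rw [if_neg (by omega)]
    | succ N hN ih =>
      rw [Finset.sum_range_succ, ih, if_pos hN]
      ring
  rw [tsum_eq_sum (s := Finset.range (max K γ.1))]
  · rw [hsum _ (le_max_left _ _), SS_zero t s y γ (le_max_right K γ.1), sub_zero]
    rfl
  · intro n hn
    rw [Finset.mem_range, not_lt] at hn
    split_ifs with h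
    · rw [SS_zero t s y γ ((le_max_right K γ.1).trans hn),
        SS_zero t s y γ (((le_max_right K γ.1).trans hn).trans (Nat.le_succ n)), sub_zero]
    · rfl

end Pool.Agent.Helper88.BAP
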