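import Pool.Agent.Helper88.BAP.SEof
import Pool.Agent.Helper6.BAP.Comb
import Pool.Agent.Helper31.BAP.SA

/-! The concrete system (part SE). -/

open MeasureTheory
open scoped ENNReal NNReal

set_option maxSynthPendingDepth 3

namespace Pool.Agent.Helper88.BAP

open Pool.Agent.Helper37.BP

theorem sys (p q : ℝ) (hpq : p.HolderConjugate q) (hp : 2 < p) :
    ∃ (Γ I : Type) (_ : DecidableEq I) (D : Sys Γ I), OutData p q D := by
  obtain ⟨t⟩ := Pool.Agent.Helper6.BAP.tree_exists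
  exact sys_of p q hpq hp t
    (fun s hs0 hs1 k h h' => Pool.Agent.Helper31.BAP.ip_xi_ev t s hs0 hs1 k h h')
    (fun s _ _ k k' hk h h' => Pool.Agent.Helper31.BAP.ip_xi_ev_ne t s k k' hk h h')
    (fun s hs0 hs1 => Pool.Agent.Helper31.BAP.sys_exists t s hs0 hs1)
    (fun s hs0 hs1 i n j => Pool.Agent.Helper31.BAP.ip_vhat_zz t s hs0 hs1 i n j)

end Pool.Agent.Helper88.BAP
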