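import Pool.Agent.Helper88.BAP.Num
import Pool.Agent.Helper47.BAP.SC
import Pool.Agent.Helper92.BAP.SB

/-! Assembly of the concrete system (part SE), from the orthogonality relations. -/

open MeasureTheory
open scoped ENNReal NNReal

set_option maxSynthPendingDepth 3

namespace Pool.Agent.Helper88.BAP

open Pool.Agent.BAPp (sgn)
open Pool.Agent.BAPp.Khin (sgn_sq abs_sgn)
open Pool.Agent.Helper37.BP

/-- index set of the diagonal -/
abbrev GG : Type := (n : ℕ) × (Sg (n + 2) × (Sg (n + 2) → Bool))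

/-- the functionals -/
noncomputable def eta (t : Tree) (s p q : ℝ) (g : GG) : Gam → ℝ := fun γ =>
  (NN t s p q (g.1 + 2))⁻¹ * ∑ j ∈ t.B (g.1 + 2) g.2.1, sgn (g.2.2 j) * xi t s (g.1 + 2) j γ

/-- the vectors -/
noncomputable def xx (t : Tree) (q : ℝ) (g : GG) : Gam → ℝ := fun γ =>
  -(cn t q (g.1 + 2)) * ∑ j ∈ t.B (g.1 + 2) g.2.1, sgn (g.2.2 j) * yy t g.1 j γ

/-- the diagonal -/
noncomputable def dd (t : Tree) (s p q : ℝ) (K : ℕ) (g : GG) : ℝ :=
  if K ≤ g.1 then dn t s p q (g.1 + 2) else 0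

/-- the functionals of the trace -/
noncomputable def phi (t : Tree) (s : ℝ) (K : ℕ) (i : Sg K) : Gam → ℝ := fun γ =>
  (1 / 2 ^ K) * ((1 / 2) * ∑ c, sgn c * xi t s (K + 1) (ch i c) γ)

lemma supp_add' {Γ : Type} {v w : Γ → ℝ} (hv : (Function.support v).Finite)
    (hw : (Function.support w).Finite) : (Function.support fun γ => v γ + w γ).Finite := by
  refine (hv.union hw).subset fun γ h => ?_
  rw [Function.mem_support] at h
  by_contra hcon
  rw [Set.mem_union, not_or, Function.mem_support, Function.mem_support, not_not, not_not] at hcon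
  apply h
  rw [hcon.1, hcon.2, add_zero]

lemma zz_supp (t : Tree) (n : ℕ) (i : Sg n) : (Function.support (zz t n i)).Finite := by
  unfold zz
  exact supp_add' (supp_sum _ _ fun c _ => supp_smul _ (ev_supp t _ _))
    (supp_sum _ _ fun c _ => supp_sum _ _ fun c' _ => ev_supp t _ _)

lemma phi_supp (t : Tree) (s : ℝ) (K : ℕ) (i : Sg K) :
    (Function.support (phi t s K i)).Finite := by
  unfold phi
  exact supp_smul _ (supp_smul _ (supp_sum _ _ fun c _ => supp_smul _ (xi_supp t s _ _)))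

lemma eta_supp (t : Tree) (s p q : ℝ) (g : GG) : (Function.support (eta t s p q g)).Finite := by
  unfold eta
  exact supp_smul _ (supp_sum _ _ fun j _ => supp_smul _ (xi_supp t s _ _))

lemma ip_sum_right {Γ ι : Type} {ρ v : Γ → ℝ} (hv : (Function.support v).Finite) (T : Finset ι)
    (f : ι → Γ → ℝ) : ip ρ v (fun γ => ∑ i ∈ T, f i γ) = ∑ i ∈ T, ip ρ v (f i) := by
  unfold ip
  rw [← Summable.tsum_finsetSum fun i _ => ip_summable hv (f i)]
  refine tsum_congr fun γ => ?_
  rw [Finset.mul_sum, Finset.mul_sum]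

lemma ip_sub_right {Γ : Type} {ρ v : Γ → ℝ} (hv : (Function.support v).Finite)
    (f g : Γ → ℝ) : ip ρ v (fun γ => f γ - g γ) = ip ρ v f - ip ρ v g := by
  unfold ip
  rw [← Summable.tsum_sub (ip_summable hv f) (ip_summable hv g)]
  exact tsum_congr fun γ => by ring

/-- the pairing with `phi` -/
lemma ip_phi (t : Tree) (s : ℝ) (K : ℕ) (i : Sg K) (y : Gam → ℝ) :
    ip (rho s) (phi t s K i) y =
      (1 / 2 ^ K) * ((1 / 2) * ∑ c, sgn c * ip (rho s) (xi t s (K + 1) (ch i c)) y) := by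
  unfold phi
  rw [ip_smul_left, ip_smul_left,
    ip_sum_left _ _ (fun c _ => supp_smul _ (xi_supp t s _ _))]
  congr 2
  exact Finset.sum_congr rfl fun c _ => ip_smul_left _ _

/-- the pairing with `eta` -/
lemma ip_eta (t : Tree) (s p q : ℝ) (g : GG) (y : Gam → ℝ) :
    ip (rho s) (eta t s p q g) y =
      (NN t s p q (g.1 + 2))⁻¹ * ∑ j ∈ t.B (g.1 + 2) g.2.1,
        sgn (g.2.2 j) * ip (rho s) (xi t s (g.1 + 2) j) y := by
  unfold eta
  rw [ip_smul_left, ip_sum_left _ _ (fun c _ => supp_smul _ (xi_supp t s _ _))]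
  congr 1
  exact Finset.sum_congr rfl fun c _ => ip_smul_left _ _

lemma ch_inj {k : ℕ} (h : Sg k) (c c' : Bool) : ch h c = ch h c' ↔ c = c' := by
  constructor
  · intro e
    rw [← ch_last h c, e, ch_last]
  · rintro rfl
    rfl

/-- the trace -/
lemma ip_phi_zz (t : Tree) (s : ℝ)
    (hxe : ∀ (k : ℕ) (h h' : Sg k),
      ip (rho s) (xi t s k h) (ev t k h') = if h = h' then 1 else 0)
    (hxn : ∀ (k k' : ℕ), k ≠ k' → ∀ (h : Sg k) (h' : Sg k'),
      ip (rho s) (xi t s k h) (ev t k' h') = 0)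
    (K : ℕ) (i : Sg K) : ip (rho s) (phi t s K i) (zz t K i) = 1 / 2 ^ K := by
  rw [ip_phi]
  have h1 : ∀ c, ip (rho s) (xi t s (K + 1) (ch i c)) (zz t K i) = sgn c := by
    intro c
    unfold zz
    rw [ip_add (xi_supp t s _ _), ip_sum_right (xi_supp t s _ _),
      ip_sum_right (xi_supp t s _ _)]
    have e1 : ∀ c', ip (rho s) (xi t s (K + 1) (ch i c))
        (fun γ => sgn c' * ev t (K + 1) (ch i c') γ) = if c = c' then sgn c' else 0 := by
      intro c'
      rw [ip_smul, hxe]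
      by_cases hc : c = c'
      · rw [if_pos hc, if_pos (by rw [hc]), mul_one]
      · rw [if_neg hc, if_neg (by rwa [ch_inj]), mul_zero]
    have e2 : ∀ c', ip (rho s) (xi t s (K + 1) (ch i c))
        (fun γ => ∑ c'', ev t (K + 2) (ch (ch i c') c'') γ) = 0 := by
      intro c'
      rw [ip_sum_right (xi_supp t s _ _)]
      exact Finset.sum_eq_zero fun c'' _ => hxn _ _ (by omega) _ _
    rw [Finset.sum_congr rfl fun c' _ => e1 c', Finset.sum_congr rfl fun c' _ => e2 c',
      Finset.sum_ite_eq, if_pos (Finset.mem_univ _), Finset.sum_const_zero, add_zero]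
  rw [Finset.sum_congr rfl fun c _ => by rw [h1 c, sgn_sq]]
  simp

lemma xx_ne {t : Tree} {q : ℝ} {g : GG} {γ : Gam} (h : xx t q g γ ≠ 0) :
    γ.1 = g.1 + 1 ∨ γ.1 = g.1 + 2 ∨ γ.1 = g.1 + 3 := by
  by_contra hcon
  rw [not_or, not_or] at hcon
  apply h
  unfold xx
  rw [Finset.sum_eq_zero, mul_zero]
  intro j _
  unfold yy
  rw [zz_zero t (g.1 + 1) (pr j) γ (by omega) (by omega),
    zz_zero t g.1 (pr (pr j)) γ (by omega) (by omega)]
  ring

lemma xx_fin (t : Tree) (q : ℝ) (γ : Gam) : {g | xx t q g γ ≠ 0}.Finite := by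
  refine Set.Finite.subset (Finset.finite_toSet ((Finset.range (γ.1 + 1)).sigma
    (fun n => (Finset.univ : Finset (Sg (n + 2) × (Sg (n + 2) → Bool)))))) ?_
  intro g hg
  rw [Finset.mem_coe, Finset.mem_sigma]
  refine ⟨?_, Finset.mem_univ _⟩
  rw [Finset.mem_range]
  have := xx_ne hg
  omega

lemma xx_level (t : Tree) {q : ℝ} (hq1 : 1 ≤ q) (hq2 : q ≤ 2) (n : ℕ) (γ : Gam) :
    ∑ g : Sg (n + 2) × (Sg (n + 2) → Bool), |xx t q ⟨n, g⟩ γ| ^ q ≤ 1 / 3 := by
  have h1 := Pool.Agent.Helper47.BAP.x_bound t q hq1 hq2 n γ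
  have h2 := cn_pow (t := t) (q := q) (by linarith) (n + 2)
  have h3 := cn_pos (t := t) (q := q) (n + 2)
  rw [Fintype.sum_prod_type]
  have h4 : ∀ (j0 : Sg (n + 2)) (θ : Sg (n + 2) → Bool), |xx t q ⟨n, (j0, θ)⟩ γ| ^ q =
      cn t q (n + 2) ^ q * |∑ j ∈ t.B (n + 2) j0, sgn (θ j) * yy t n j γ| ^ q := by
    intro j0 θ
    unfold xx
    rw [abs_mul, abs_neg, abs_of_pos h3, Real.mul_rpow h3.le (abs_nonneg _)]
  simp only [h4]
  simp only [← Finset.mul_sum]
  rw [← h2]
  exact mul_le_mul_of_nonneg_left h1 (Real.rpow_nonneg h3.le q)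

lemma sigma_tsum {f : GG → ℝ} (hf : Summable f) :
    ∑' g, f g = ∑' n, ∑ g : Sg (n + 2) × (Sg (n + 2) → Bool), f ⟨n, g⟩ := by
  rw [hf.tsum_sigma]
  exact tsum_congr fun n => tsum_fintype _

lemma xx_sum (t : Tree) {q : ℝ} (hq1 : 1 ≤ q) (hq2 : q ≤ 2) (γ : Gam) :
    ∑' g, |xx t q g γ| ^ q ≤ 1 := by
  have hq0 : q ≠ 0 := by linarith
  have hs : Summable fun g => |xx t q g γ| ^ q := by
    refine summable_of_hasFiniteSupport ((xx_fin t q γ).subset fun g h => ?_)
    rw [Function.mem_support] at h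
    intro h0
    apply h
    rw [h0, abs_zero, Real.zero_rpow hq0]
  rw [sigma_tsum hs, tsum_eq_sum (s := {γ.1 - 1, γ.1 - 2, γ.1 - 3})]
  · refine (Finset.sum_le_card_nsmul _ _ _ fun n _ => xx_level t hq1 hq2 n γ).trans ?_
    have hc : (({γ.1 - 1, γ.1 - 2, γ.1 - 3} : Finset ℕ).card : ℝ) ≤ 3 := by
      exact_mod_cast Finset.card_le_three
    rw [nsmul_eq_mul]
    linarith
  · intro n hn
    refine Finset.sum_eq_zero fun g _ => ?_
    by_contra hne
    have h0 : xx t q ⟨n, g⟩ γ ≠ 0 := by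
      intro h0
      apply hne
      rw [h0, abs_zero, Real.zero_rpow hq0]
    have h1 := xx_ne h0
    apply hn
    simp only [Finset.mem_insert, Finset.mem_singleton]
    simp only at h1
    omega

lemma dd_nonneg {t : Tree} {s p q : ℝ} (hs0 : 0 < s) (hs1 : s < 1) (K : ℕ) (g : GG) :
    0 ≤ dd t s p q K g := by
  unfold dd
  split_ifs
  · exact (dn_pos hs0 hs1 _).le
  · exact le_rfl

lemma card_lev (n : ℕ) :
    (Fintype.card (Sg (n + 2) × (Sg (n + 2) → Bool)) : ℝ) = 2 ^ (n + 2) * 2 ^ (2 ^ (n + 2)) := by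
  rw [Fintype.card_prod, card_Sg]
  simp

/-- the sum over a level -/
lemma dd_level {t : Tree} {s p q : ℝ} (hp : 0 < p) (K n : ℕ) :
    ∑ g : Sg (n + 2) × (Sg (n + 2) → Bool), dd t s p q K ⟨n, g⟩ ^ p =
      if K ≤ n then 2 ^ (n + 2) * 2 ^ (2 ^ (n + 2)) * dn t s p q (n + 2) ^ p else 0 := by
  unfold dd
  simp only
  split_ifs with h
  · rw [Finset.sum_const, nsmul_eq_mul, Finset.card_univ, card_lev]
  · rw [Real.zero_rpow hp.ne', Finset.sum_const_zero]

theorem sys_of (p q : ℝ) (hpq : p.HolderConjugate q) (hp : 2 < p) (t : Tree)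
    (hxe : ∀ s : ℝ, 0 < s → s < 1 → ∀ (k : ℕ) (h h' : Sg k),
      ip (rho s) (xi t s k h) (ev t k h') = if h = h' then 1 else 0)
    (hxn : ∀ s : ℝ, 0 < s → s < 1 → ∀ (k k' : ℕ), k ≠ k' → ∀ (h : Sg k) (h' : Sg k'),
      ip (rho s) (xi t s k h) (ev t k' h') = 0)
    (hsys : ∀ s : ℝ, 0 < s → s < 1 → ∃ D : Sys Gam Ix, D.ρ = rho s ∧ D.vh = vhat t s)
    (hvz : ∀ s : ℝ, 0 < s → s < 1 → ∀ (i : Ix) (n : ℕ) (j : Sg n),
      ip (rho s) (vhat t s i) (zz t n j) = 0) :
    ∃ (Γ I : Type) (_ : DecidableEq I) (D : Sys Γ I), OutData p q D := by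
  obtain ⟨s, hs0, hs1, A, r, hA, hr0, hr1, hen⟩ := en_le hpq hp t
  obtain ⟨D, hDρ, hDv⟩ := hsys s hs0 hs1
  have hp0 : 0 < p := by linarith
  have hq1 : 1 ≤ q := hpq.symm.lt.le
  have hq2 : q ≤ 2 := by
    have h1 := hpq.inv_add_inv_eq_one
    have h2 : p⁻¹ < 1 / 2 := by
      rw [inv_lt_comm₀ hp0 (by norm_num)]
      norm_num
      exact hp
    have h3 : 1 / 2 < q⁻¹ := by linarith
    by_contra hcon
    rw [not_le] at hcon
    have h4 : q⁻¹ < 1 / 2 := by
      rw [inv_lt_comm₀ (by linarith) (by norm_num)]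
      norm_num
      exact hcon
    linarith
  refine ⟨Gam, Ix, inferInstance, D, ?_⟩
  intro ε hε
  -- the size of the diagonal
  set r' := Real.sqrt r with hr'
  have hr'0 : 0 < r' := Real.sqrt_pos.2 hr0
  have hr'1 : r' < 1 := by rw [hr', Real.sqrt_lt' one_pos]; simpa using hr1
  have hrr : r' * r' = r := Real.mul_self_sqrt hr0.le
  have h1r' : 0 < 1 - r' := by linarith
  obtain ⟨K, hK⟩ := exists_pow_lt_of_lt_one (y := r') (x := ε ^ p / (A * (1 - r')⁻¹))
    (by positivity) hr'1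
  have hbd : ∀ n, (if K ≤ n then 2 ^ (n + 2) * 2 ^ (2 ^ (n + 2)) * dn t s p q (n + 2) ^ p else 0)
      ≤ A * r' ^ K * r' ^ n := by
    intro n
    split_ifs with h
    · refine (hen (n + 2)).trans ?_
      have h1 : r ^ (n + 2) ≤ r' ^ K * r' ^ n := by
        calc r ^ (n + 2) ≤ r ^ n := pow_le_pow_of_le_one hr0.le hr1.le (by omega)
          _ = r' ^ n * r' ^ n := by rw [← hrr, mul_pow]
          _ ≤ r' ^ K * r' ^ n := by
            refine mul_le_mul_of_nonneg_right ?_ (by positivity)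
            exact pow_le_pow_of_le_one hr'0.le hr'1.le h
      calc A * r ^ (n + 2) ≤ A * (r' ^ K * r' ^ n) := mul_le_mul_of_nonneg_left h1 hA.le
        _ = A * r' ^ K * r' ^ n := by ring
    · positivity
  have hnn : ∀ n, 0 ≤ (if K ≤ n then
      2 ^ (n + 2) * 2 ^ (2 ^ (n + 2)) * dn t s p q (n + 2) ^ p else 0) := by
    intro n
    split_ifs with h
    · have := dn_pos (t := t) (p := p) (q := q) hs0 hs1 (n + 2)
      positivity
    · exact le_rfl
  have hgeo : Summable fun n : ℕ => A * r' ^ K * r' ^ n :=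
    (summable_geometric_of_lt_one hr'0.le hr'1).mul_left _
  have hsn : Summable fun n => (if K ≤ n then
      2 ^ (n + 2) * 2 ^ (2 ^ (n + 2)) * dn t s p q (n + 2) ^ p else 0) :=
    Summable.of_nonneg_of_le hnn hbd hgeo
  have hds : Summable fun g : GG => dd t s p q K g ^ p := by
    rw [summable_sigma_of_nonneg fun g => Real.rpow_nonneg (dd_nonneg hs0 hs1 K g) p]
    refine ⟨fun n => (hasSum_fintype _).summable, ?_⟩
    refine hsn.congr fun n => ?_
    rw [tsum_fintype, dd_level hp0]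
  have hdt : ∑' g : GG, dd t s p q K g ^ p = ∑' n, (if K ≤ n then
      2 ^ (n + 2) * 2 ^ (2 ^ (n + 2)) * dn t s p q (n + 2) ^ p else 0) := by
    rw [sigma_tsum hds]
    exact tsum_congr fun n => dd_level hp0 K n
  -- nodes
  have hcard : Fintype.card (Sg K) = 2 ^ K := card_Sg K
  let e : Fin (2 ^ K) ≃ Sg K := (Fintype.equivFinOfCardEq hcard).symm
  -- orthogonality
  have hvy : ∀ (i : Ix) (n : ℕ) (j : Sg (n + 2)), ip (rho s) (vhat t s i) (yy t n j) = 0 := by
    intro i n j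
    have hv : (Function.support (vhat t s i)).Finite := by
      rw [← hDv]
      exact D.fin_supp i
    unfold yy
    rw [ip_sub_right hv, ip_smul, hvz s hs0 hs1, hvz s hs0 hs1]
    ring
  refine ⟨2 ^ K, fun i => phi t s K (e i), fun i => zz t K (e i), GG, inferInstance,
    eta t s p q, xx t q, dd t s p q K, fun i => phi_supp t s K _, fun i => zz_supp t K _, ?_, ?_,
    fun g => eta_supp t s p q g, ?_, ?_, xx_fin t q, xx_sum t hq1 hq2, dd_nonneg hs0 hs1 K, hds,
    ?_, ?_, ?_⟩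
  · intro i j
    rw [hDρ, hDv]
    exact hvz s hs0 hs1 j K (e i)
  · rw [hDρ]
    rw [Finset.sum_congr rfl fun i _ => ip_phi_zz t s (hxe s hs0 hs1) (hxn s hs0 hs1) K (e i)]
    rw [Finset.sum_const, Finset.card_univ, Fintype.card_fin, nsmul_eq_mul]
    push_cast
    field_simp
  · intro g
    rw [hDρ]
    have h1 := Pool.Agent.Helper92.BAP.eta_bound t s p hs0 hs1 (by linarith) (g.1 + 2) g.2.1 g.2.2
    have hN := NN_pos (t := t) (p := p) (q := q) hs0 hs1 (g.1 + 2)
    have h2 : ∀ γ, rho s γ * |eta t s p q g γ| ^ p = (NN t s p q (g.1 + 2))⁻¹ ^ p *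
        (rho s γ * |∑ j ∈ t.B (g.1 + 2) g.2.1, sgn (g.2.2 j) * xi t s (g.1 + 2) j γ| ^ p) := by
      intro γ
      unfold eta
      rw [abs_mul, abs_of_pos (inv_pos.2 hN), Real.mul_rpow (inv_pos.2 hN).le (abs_nonneg _)]
      ring
    rw [tsum_congr h2, tsum_mul_left, ← NN_pow (t := t) hpq hs0 hs1 (g.1 + 2)]
    exact mul_le_mul_of_nonneg_left h1 (Real.rpow_nonneg (inv_pos.2 hN).le p)
  · intro g j
    rw [hDρ, hDv]
    have hv : (Function.support (vhat t s j)).Finite := by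
      rw [← hDv]
      exact D.fin_supp j
    unfold xx
    rw [ip_smul, ip_sum_right hv, Finset.sum_eq_zero, mul_zero]
    intro j' _
    rw [ip_smul, hvy, mul_zero]
  · refine hds.tsum_pos (fun g => Real.rpow_nonneg (dd_nonneg hs0 hs1 K g) p)
      ⟨K, (fun _ => false, fun _ => false)⟩ ?_
    refine Real.rpow_pos_of_pos ?_ p
    unfold dd
    rw [if_pos le_rfl]
    exact dn_pos hs0 hs1 _
  · rw [hdt]
    refine (hsn.tsum_le_tsum hbd hgeo).trans ?_
    rw [tsum_mul_left, tsum_geometric_of_lt_one hr'0.le hr'1]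
    rw [lt_div_iff₀ (by positivity)] at hK
    calc A * r' ^ K * (1 - r')⁻¹ = r' ^ K * (A * (1 - r')⁻¹) := by ring
      _ ≤ ε ^ p := hK.le
  · intro y hy γ
    rw [hDρ, hDv] at *
    have hyv : ∀ n (i : Sg n), ip (rho s) (vv t s n i) y = 0 := by
      intro n i
      have h1 := hy ⟨n, i⟩
      have hnv : 0 < nv t s n := by
        have h2 : (0 : ℝ) < t.m (n + 1) := by exact_mod_cast m_pos t (n + 1)
        have h3 : (0 : ℝ) < t.m (n + 2) := by exact_mod_cast m_pos t (n + 2)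
        have h4 := rp_pos hs0 hs1 (n + 1)
        have h5 := rp_pos hs0 hs1 (n + 2)
        unfold nv
        positivity
      have h2 : vhat t s ⟨n, i⟩ = fun γ => (Real.sqrt (nv t s n))⁻¹ * vv t s n i γ := by
        funext γ
        unfold vhat
        simp only
        rw [div_eq_inv_mul]
      rw [h2, ip_smul_left] at h1
      rcases mul_eq_zero.1 h1 with h | h
      · exact absurd h (inv_ne_zero (Real.sqrt_pos.2 hnv).ne')
      · exact h
    have htel := telescope t s hs0 hs1 y hyv K γ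
    have hL : ∑ i : Fin (2 ^ K), ip (rho s) (phi t s K (e i)) y * zz t K (e i) γ =
        ∑ i : Sg K, ((1 / 2 ^ K) * ((1 / 2) * ∑ c, sgn c *
          ip (rho s) (xi t s (K + 1) (ch i c)) y)) * zz t K i γ := by
      rw [← e.sum_comp]
      exact Finset.sum_congr rfl fun i _ => by rw [ip_phi]
    rw [hL, htel]
    have hfs : Summable fun g : GG =>
        dd t s p q K g * ip (rho s) (eta t s p q g) y * xx t q g γ := by
      refine summable_of_hasFiniteSupport ((xx_fin t q γ).subset fun g h => ?_)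
      rw [Function.mem_support] at h
      intro h0
      apply h
      rw [h0, mul_zero]
    rw [sigma_tsum hfs]
    refine tsum_congr fun n => ?_
    rw [Fintype.sum_prod_type]
    by_cases hn : K ≤ n
    · rw [if_pos hn]
      rw [← neg_mul, Finset.mul_sum]
      refine Finset.sum_congr rfl fun j0 _ => ?_
      rw [Finset.mul_sum]
      refine Finset.sum_congr rfl fun θ _ => ?_
      rw [ip_eta]
      unfold dd xx
      simp only
      rw [if_pos hn]
      have hN := NN_pos (t := t) (p := p) (q := q) hs0 hs1 (n + 2)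
      have hc := cn_pos (t := t) (q := q) (n + 2)
      unfold dn Wn
      field_simp
    · rw [if_neg hn]
      symm
      refine Finset.sum_eq_zero fun j0 _ => Finset.sum_eq_zero fun θ _ => ?_
      unfold dd
      rw [if_neg hn]
      ring

end Pool.Agent.Helper88.BAP
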