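import Pool.Agent.Helper88.BAP.SD

/-! The numbers of the concrete system (part SE). -/

open MeasureTheory
open scoped ENNReal NNReal

set_option maxSynthPendingDepth 3

namespace Pool.Agent.Helper88.BAP

open Pool.Agent.BAPp (sgn)
open Pool.Agent.BAPp.Khin (sgn_sq abs_sgn)
open Pool.Agent.Helper37.BP

lemma m_pos (t : Tree) (k : ℕ) : 0 < t.m k := by
  rw [← t.A_card k (fun _ => false)]
  exact Finset.card_pos.2 ⟨_, t.A_self k _⟩

lemma rp_pos {s : ℝ} (hs0 : 0 < s) (hs1 : s < 1) (k : ℕ) : 0 < rp s k := by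
  unfold rp
  have : 0 < 1 - s := by linarith
  positivity

section

variable (t : Tree) (s p q : ℝ)

/-- bound for the `L_p` norm -/
noncomputable def NN (k : ℕ) : ℝ :=
  (t.b k : ℝ) ^ (1 / p) * ((t.m k : ℝ) * rp s k) ^ (-(1 / q))

/-- normalisation of the vectors -/
noncomputable def cn (k : ℕ) : ℝ :=
  (3 * 2 ^ 24 * 2 ^ (2 ^ k) * t.m k * (t.b k : ℝ) ^ (q / 2)) ^ (-(1 / q))

/-- the weights of the averages -/
noncomputable def Wn (k : ℕ) : ℝ := 1 / (2 ^ k * t.b k * 2 ^ (2 ^ k))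

/-- the diagonal -/
noncomputable def dn (k : ℕ) : ℝ := Wn t k * NN t s p q k / cn t q k

variable {t s p q}

lemma NN_pos (hs0 : 0 < s) (hs1 : s < 1) (k : ℕ) : 0 < NN t s p q k := by
  have h1 : (0 : ℝ) < t.b k := by exact_mod_cast b_pos t k
  have h2 : (0 : ℝ) < t.m k := by exact_mod_cast m_pos t k
  have h3 := rp_pos hs0 hs1 k
  unfold NN
  positivity

lemma cn_pos (k : ℕ) : 0 < cn t q k := by
  have h1 : (0 : ℝ) < t.b k := by exact_mod_cast b_pos t k
  have h2 : (0 : ℝ) < t.m k := by exact_mod_cast m_pos t k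
  unfold cn
  positivity

lemma Wn_pos (k : ℕ) : 0 < Wn t k := by
  have h1 : (0 : ℝ) < t.b k := by exact_mod_cast b_pos t k
  unfold Wn
  positivity

lemma dn_pos (hs0 : 0 < s) (hs1 : s < 1) (k : ℕ) : 0 < dn t s p q k := by
  have h1 := NN_pos (t := t) (p := p) (q := q) hs0 hs1 k
  have h2 := cn_pos (t := t) (q := q) k
  have h3 := Wn_pos (t := t) k
  unfold dn
  positivity

lemma NN_pow (hpq : p.HolderConjugate q) (hs0 : 0 < s) (hs1 : s < 1) (k : ℕ) :
    (NN t s p q k)⁻¹ ^ p * (t.b k * (t.m k * rp s k) ^ (1 - p)) = 1 := by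
  have h1 : (0 : ℝ) < t.b k := by exact_mod_cast b_pos t k
  have h2 : (0 : ℝ) < t.m k := by exact_mod_cast m_pos t k
  have h3 := rp_pos hs0 hs1 k
  have hp := hpq.pos
  have hq := hpq.symm.pos
  have hN := NN_pos (t := t) (p := p) (q := q) hs0 hs1 k
  have hpq' := hpq.inv_add_inv_eq_one
  have h4 : NN t s p q k ^ p = t.b k * (t.m k * rp s k) ^ (1 - p) := by
    unfold NN
    rw [Real.mul_rpow (by positivity) (by positivity), ← Real.rpow_mul h1.le,
      ← Real.rpow_mul (by positivity)]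
    congr 1
    · rw [one_div_mul_cancel hp.ne', Real.rpow_one]
    · congr 1
      have h5 : q⁻¹ = 1 - p⁻¹ := by linarith
      rw [one_div, h5]
      field_simp
      ring
  rw [Real.inv_rpow hN.le, h4]
  exact inv_mul_cancel₀ (by positivity)

lemma cn_pow (hq : 0 < q) (k : ℕ) :
    (cn t q k) ^ q * (2 ^ 24 * 2 ^ (2 ^ k) * t.m k * (t.b k : ℝ) ^ (q / 2)) = 1 / 3 := by
  have h1 : (0 : ℝ) < t.b k := by exact_mod_cast b_pos t k
  have h2 : (0 : ℝ) < t.m k := by exact_mod_cast m_pos t k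
  unfold cn
  rw [← Real.rpow_mul (by positivity)]
  have h3 : -(1 / q) * q = -1 := by field_simp
  rw [h3, Real.rpow_neg_one]
  have h4 : (0 : ℝ) < (t.b k : ℝ) ^ (q / 2) := by positivity
  field_simp

/-- the size of the diagonal -/
theorem en_le (hpq : p.HolderConjugate q) (hp : 2 < p) (t : Tree) :
    ∃ s : ℝ, 0 < s ∧ s < 1 ∧ ∃ A r : ℝ, 0 < A ∧ 0 < r ∧ r < 1 ∧
      ∀ k, 2 ^ k * 2 ^ (2 ^ k) * dn t s p q k ^ p ≤ A * r ^ k := by
  have hp0 : 0 < p := by linarith
  have hq0 : 0 < q := hpq.symm.pos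
  have hpq' := hpq.inv_add_inv_eq_one
  set v := q⁻¹ with hv
  have hpi : p⁻¹ = 1 - v := by linarith
  have hv12 : 1 / 2 < v := by
    have : p⁻¹ < 1 / 2 := by
      rw [inv_lt_comm₀ hp0 (by norm_num)]
      norm_num
      exact hp
    linarith
  have hv0 : 0 < v := by linarith
  have hl2 : 0 < Real.log 2 := Real.log_pos (by norm_num)
  set ls := -((v - 1 / 2) * Real.log 2 / (24 * v)) with hls
  have hls0 : ls < 0 := by
    have : 0 < (v - 1 / 2) * Real.log 2 / (24 * v) := by
      have : 0 < v - 1 / 2 := by linarith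
      positivity
    linarith
  set s := Real.exp ls with hs
  have hs0 : 0 < s := Real.exp_pos _
  have hs1 : s < 1 := by rw [hs, Real.exp_lt_one_iff]; exact hls0
  have h1s : 0 < 1 - s := by linarith
  set C0 := Real.log (3 * 2 ^ 24) with hC0
  set A' := p * C0 * v + p * (v - 1 / 2) * (18 * Real.log 2) / 12 - p * v * Real.log (1 - s) with hA'
  set e := p * (v - 1 / 2) * Real.log 2 / 24 with he
  have he0 : 0 < e := by
    have : 0 < v - 1 / 2 := by linarith
    positivity
  refine ⟨s, hs0, hs1, Real.exp A', Real.exp (-e), Real.exp_pos _, Real.exp_pos _, by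
    rw [Real.exp_lt_one_iff]; linarith, fun k => ?_⟩
  have hb : (0 : ℝ) < t.b k := by exact_mod_cast b_pos t k
  have hm : (0 : ℝ) < t.m k := by exact_mod_cast m_pos t k
  have hr := rp_pos hs0 hs1 k
  set β := Real.log (t.b k) with hβ
  set μ := Real.log (t.m k) with hμ
  set ρ := Real.log (rp s k) with hρ
  set E := (2 : ℝ) ^ k * Real.log 2 with hE
  set κ := (k : ℝ) * Real.log 2 with hκ
  have eb : (t.b k : ℝ) = Real.exp β := (Real.exp_log hb).symm
  have em : (t.m k : ℝ) = Real.exp μ := (Real.exp_log hm).symm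
  have er : rp s k = Real.exp ρ := (Real.exp_log hr).symm
  have e2k : (2 : ℝ) ^ k = Real.exp κ := by
    rw [hκ, ← Real.log_pow, Real.exp_log (by positivity)]
  have e22k : (2 : ℝ) ^ (2 ^ k) = Real.exp E := by
    have h1 : E = Real.log ((2 : ℝ) ^ (2 ^ k)) := by
      rw [Real.log_pow]
      push_cast
      rfl
    rw [h1, Real.exp_log (by positivity)]
  have e3 : (3 * 2 ^ 24 : ℝ) = Real.exp C0 := (Real.exp_log (by norm_num)).symm
  have hρ' : ρ = Real.log (1 - s) + k * ls - κ := by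
    rw [hρ]
    unfold rp
    rw [Real.log_div (by positivity) (by positivity), Real.log_mul h1s.ne' (by positivity),
      Real.log_pow, Real.log_pow, hs, Real.log_exp]
  have eN : NN t s p q k = Real.exp (β * p⁻¹ - (μ + ρ) * v) := by
    unfold NN
    rw [eb, em, er, ← Real.exp_add, ← Real.exp_mul, ← Real.exp_mul, ← Real.exp_add, one_div,
      one_div]
    congr 1
    rw [← hv]
    ring
  have ec : cn t q k = Real.exp (-((C0 + E + μ) * v) - β / 2) := by
    unfold cn
    rw [e3, e22k, em, eb, ← Real.exp_mul, ← Real.exp_add, ← Real.exp_add, ← Real.exp_add,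
      ← Real.exp_mul, one_div, ← hv]
    congr 1
    have : q * v = 1 := by rw [hv]; exact mul_inv_cancel₀ hq0.ne'
    linear_combination -(β / 2) * this
  have eW : Wn t k = Real.exp (-(κ + β + E)) := by
    unfold Wn
    rw [e2k, e22k, eb, ← Real.exp_add, ← Real.exp_add, one_div, ← Real.exp_neg]
  have ed : dn t s p q k = Real.exp (-(κ + β + E) + (β * p⁻¹ - (μ + ρ) * v) -
      (-((C0 + E + μ) * v) - β / 2)) := by
    unfold dn
    rw [eN, ec, eW, ← Real.exp_add, ← Real.exp_sub]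
  rw [ed, e2k, e22k, ← Real.exp_mul, ← Real.exp_add, ← Real.exp_add, ← Real.exp_nat_mul,
    ← Real.exp_add]
  refine Real.exp_le_exp.2 ?_
  have hpv : p * v = p - 1 := by
    have h1 : p * p⁻¹ = 1 := mul_inv_cancel₀ hp0.ne'
    rw [hpi] at h1
    linarith
  have hkey : κ + E + (-(κ + β + E) + (β * p⁻¹ - (μ + ρ) * v) -
      (-((C0 + E + μ) * v) - β / 2)) * p =
      p * C0 * v - p * β * (v - 1 / 2) - p * v * (Real.log (1 - s) + k * ls) := by
    rw [hρ', hpi]
    linear_combination (E + κ) * hpv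
  rw [hkey]
  -- the size of `b`
  have hbge : κ ≤ 18 * Real.log 2 + 12 * β := by
    have h1 := t.b_ge k
    have h2 : (2 : ℝ) ^ k ≤ 2 ^ 18 * (t.b k : ℝ) ^ 12 := by exact_mod_cast h1
    have h3 := Real.log_le_log (by positivity) h2
    rw [Real.log_mul (by positivity) (by positivity), Real.log_pow, Real.log_pow,
      Real.log_pow] at h3
    push_cast at h3
    exact h3
  have h4 : p * (v - 1 / 2) * (κ - 18 * Real.log 2) / 12 ≤ p * β * (v - 1 / 2) := by
    have h5 : 0 ≤ p * (v - 1 / 2) := by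
      have : 0 < v - 1 / 2 := by linarith
      positivity
    nlinarith
  have h6 : p * v * (k * ls) = -(p * (v - 1 / 2) * κ / 24) := by
    rw [hls, hκ]
    field_simp
  have h7 : (k : ℝ) * -e = -(p * (v - 1 / 2) * κ / 24) := by
    rw [he, hκ]
    ring
  rw [h7, hA']
  have h8 : p * v * (Real.log (1 - s) + k * ls) = p * v * Real.log (1 - s) + p * v * (k * ls) := by
    ring
  rw [h8, h6]
  have h9 : p * (v - 1 / 2) * (κ - 18 * Real.log 2) / 12 =
      p * (v - 1 / 2) * κ / 12 - p * (v - 1 / 2) * (18 * Real.log 2) / 12 := by ring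
  rw [h9] at h4
  linarith

end

end Pool.Agent.Helper88.BAP
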